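import Pool.Agent.MP_e47bfc_lc.Final

set_option autoImplicit false
set_option linter.style.haveILetI false

/-!
# MP_e47bfc_lc: a complete first-order theory whose isomorphism relation is essentially countable
and not smooth

There are a countable relational language `L` and a complete first-order `L`-theory `T` such that
the isomorphism relation `≅_T` of the models of `T` with universe `ℕ` is Borel bireducible with
the eventual equality `E_0` on `2^ℕ`.
-/

namespace Pool.Agent.Results.MP_e47bfc_lc.CompleteTheory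

open FirstOrder FirstOrder.Language

/-- `Mod T`: the set of the `L`-structures with universe `ℕ` which satisfy the theory `T`. -/
def Mod {L : FirstOrder.Language.{0, 0}} (T : L.Theory) : Type :=
  {A : L.Structure ℕ // @Theory.Model L ℕ A T}

/-- The code of an `L`-structure `A` with universe `ℕ`: the truth values of all the atomic facts
`f (v) = w` and `R (v)` about tuples from `ℕ`, an element of a product of copies of the two-point
space. -/
noncomputable def code {L : FirstOrder.Language.{0, 0}} (A : L.Structure ℕ) :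
    ((n : ℕ) → L.Functions n → (Fin n → ℕ) → ℕ → Bool) ×
      ((n : ℕ) → L.Relations n → (Fin n → ℕ) → Bool) :=
  open Classical in
  (fun _ f v w => decide (A.funMap f v = w), fun _ r v => decide (A.RelMap r v))

/-- The topology of `Mod T`: the one inherited from the product topology of the codes (`Bool` is
discrete). -/
noncomputable instance {L : FirstOrder.Language.{0, 0}} (T : L.Theory) :
    TopologicalSpace (Mod T) :=
  TopologicalSpace.induced (fun A => code A.1) inferInstance

/-- The isomorphism relation `≅_T` on `Mod T`. -/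
def Iso {L : FirstOrder.Language.{0, 0}} (T : L.Theory) (A B : Mod T) : Prop :=
  Nonempty (@FirstOrder.Language.Equiv L ℕ ℕ A.1 B.1)

/-- `f` is a Borel map: the preimages of the Borel sets of `Y` are Borel sets of `X`. -/
def BorelMap {X Y : Type} [TopologicalSpace X] [TopologicalSpace Y] (f : X → Y) : Prop :=
  @Measurable X Y (borel X) (borel Y) f

/-- The relation `E` on `X` is Borel reducible to the relation `F` on `Y`. -/
def Reducible {X Y : Type} [TopologicalSpace X] [TopologicalSpace Y] (E : X → X → Prop)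
    (F : Y → Y → Prop) : Prop :=
  ∃ f : X → Y, BorelMap f ∧ ∀ x x' : X, E x x' ↔ F (f x) (f x')

/-- `F` is a countable Borel equivalence relation on `Y`: an equivalence relation which is a Borel
subset of `Y × Y` and has countable classes. -/
def CountableBorel {Y : Type} [TopologicalSpace Y] (F : Y → Y → Prop) : Prop :=
  Equivalence F ∧ @MeasurableSet (Y × Y) (borel (Y × Y)) {p | F p.1 p.2} ∧
    ∀ y : Y, {z : Y | F y z}.Countable

/-- `E` is essentially countable: Borel reducible to a countable Borel equivalence relation on a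
Polish space. -/
def EssentiallyCountable {X : Type} [TopologicalSpace X] (E : X → X → Prop) : Prop :=
  ∃ (Y : Type) (_ : TopologicalSpace Y) (_ : PolishSpace Y) (F : Y → Y → Prop),
    CountableBorel F ∧ Reducible E F

/-- `E` is smooth: Borel reducible to the equality relation on `2^ℕ`. -/
def Smooth {X : Type} [TopologicalSpace X] (E : X → X → Prop) : Prop :=
  Reducible E (fun x y : ℕ → Bool => x = y)

/-- The relation `E_0` of eventual equality on `2^ℕ`. -/
def E0 (x y : ℕ → Bool) : Prop :=
  ∃ m, ∀ n, m ≤ n → x n = y n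

/-! ### The complete theory -/

private theorem term_indep {α : Type} (A B : HK.L.Structure ℕ) (v : α → ℕ) (t : HK.L.Term α) :
    @Term.realize HK.L ℕ A α v t = @Term.realize HK.L ℕ B α v t := by
  cases t with
  | var i => rfl
  | func f ts => exact Empty.elim f

/-- The model coded by `x`. -/
@[reducible] private def mo (D : HK.BD) (e : ℕ ≃ ℚ ⊕ (D.S ⊕ D.B)) (x : ℕ → Bool) :
    HK.L.Structure ℕ :=
  HK.ofRaw ((D.rawx x).comap e)

private theorem rel_loc (D : HK.BD) (e : ℕ ≃ ℚ ⊕ (D.S ⊕ D.B)) {k : ℕ} (r : HK.L.Relations k) :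
    ∃ N : ℕ, ∀ x y : ℕ → Bool, (∀ n < N, x n = y n) → ∀ v : Fin k → ℕ,
      ((mo D e x).RelMap r v ↔ (mo D e y).RelMap r v) := by
  cases r
  · exact ⟨0, fun x y _ v => Iff.rfl⟩
  · exact ⟨0, fun x y _ v => Iff.rfl⟩
  · exact ⟨0, fun x y _ v => Iff.rfl⟩
  · rename_i n k
    refine ⟨n + 1, fun x y h v => ?_⟩
    have h1 : x n = y n := h n (Nat.lt_succ_self n)
    show (∃ o, e (v 0) = Sum.inr (Sum.inr o) ∧
        D.lam o = (n : ℚ) ∧ (((k : ℚ) : WithTop ℚ)) ≤ D.rho o (D.o n (x n))) ↔
      (∃ o, e (v 0) = Sum.inr (Sum.inr o) ∧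
        D.lam o = (n : ℚ) ∧ (((k : ℚ) : WithTop ℚ)) ≤ D.rho o (D.o n (y n)))
    rw [h1]
  · exact ⟨0, fun x y _ v => Iff.rfl⟩
  · exact ⟨0, fun x y _ v => Iff.rfl⟩
  · exact ⟨0, fun x y _ v => Iff.rfl⟩
  · exact ⟨0, fun x y _ v => Iff.rfl⟩
  · exact ⟨0, fun x y _ v => Iff.rfl⟩

private theorem realize_loc (D : HK.BD) (e : ℕ ≃ ℚ ⊕ (D.S ⊕ D.B)) {α : Type} {k : ℕ}
    (φ : HK.L.BoundedFormula α k) :
    ∃ N : ℕ, ∀ x y : ℕ → Bool, (∀ n < N, x n = y n) → ∀ (v : α → ℕ) (xs : Fin k → ℕ),
      (@BoundedFormula.Realize HK.L ℕ (mo D e x) α k φ v xs ↔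
        @BoundedFormula.Realize HK.L ℕ (mo D e y) α k φ v xs) := by
  induction φ with
  | falsum => exact ⟨0, fun x y _ v xs => Iff.rfl⟩
  | equal t₁ t₂ =>
    refine ⟨0, fun x y _ v xs => ?_⟩
    show (@Term.realize HK.L ℕ (mo D e x) _ (Sum.elim v xs) t₁ =
      @Term.realize HK.L ℕ (mo D e x) _ (Sum.elim v xs) t₂) ↔
      (@Term.realize HK.L ℕ (mo D e y) _ (Sum.elim v xs) t₁ =
      @Term.realize HK.L ℕ (mo D e y) _ (Sum.elim v xs) t₂)
    rw [term_indep (mo D e x) (mo D e y), term_indep (mo D e x) (mo D e y)]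
  | rel r ts =>
    obtain ⟨N, hN⟩ := rel_loc D e r
    refine ⟨N, fun x y h v xs => ?_⟩
    show ((mo D e x).RelMap r fun i =>
        @Term.realize HK.L ℕ (mo D e x) _ (Sum.elim v xs) (ts i)) ↔
      ((mo D e y).RelMap r fun i =>
        @Term.realize HK.L ℕ (mo D e y) _ (Sum.elim v xs) (ts i))
    have h1 : (fun i => @Term.realize HK.L ℕ (mo D e x) _ (Sum.elim v xs) (ts i)) =
        (fun i => @Term.realize HK.L ℕ (mo D e y) _ (Sum.elim v xs) (ts i)) :=
      funext fun i => term_indep (mo D e x) (mo D e y) _ _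
    rw [h1]
    exact hN x y h _
  | imp f₁ f₂ ih₁ ih₂ =>
    obtain ⟨N₁, h₁⟩ := ih₁
    obtain ⟨N₂, h₂⟩ := ih₂
    refine ⟨max N₁ N₂, fun x y h v xs => ?_⟩
    exact imp_congr
      (h₁ x y (fun n hn => h n (lt_of_lt_of_le hn (le_max_left _ _))) v xs)
      (h₂ x y (fun n hn => h n (lt_of_lt_of_le hn (le_max_right _ _))) v xs)
  | all f ih =>
    obtain ⟨N, hN⟩ := ih
    refine ⟨N, fun x y h v xs => ?_⟩
    exact forall_congr' fun a => hN x y h v _

private theorem mo_iso (D : HK.BD) (e : ℕ ≃ ℚ ⊕ (D.S ⊕ D.B)) (x y : ℕ → Bool) :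
    Nonempty (@FirstOrder.Language.Equiv HK.L ℕ ℕ (mo D e x) (mo D e y)) ↔ E0 x y := by
  unfold mo E0
  rw [HK.iso_iff, HK.raw_ofRaw, HK.raw_ofRaw, D.iso_iff]

/-- All the models `mo D e x` have the same first-order theory. -/
private theorem mo_theory (D : HK.BD) (e : ℕ ≃ ℚ ⊕ (D.S ⊕ D.B)) (x y : ℕ → Bool) :
    @completeTheory HK.L ℕ (mo D e x) = @completeTheory HK.L ℕ (mo D e y) := by
  ext φ
  obtain ⟨N, hN⟩ := realize_loc D e φ
  obtain ⟨E⟩ := (mo_iso D e (fun n => if n < N then x n else y n) y).2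
    ⟨N, fun n hn => by simp [not_lt.2 hn]⟩
  have h1 : @Sentence.Realize HK.L ℕ (mo D e x) φ ↔
      @Sentence.Realize HK.L ℕ (mo D e (fun n => if n < N then x n else y n)) φ :=
    hN _ _ (fun n hn => by simp [hn]) _ _
  have h2 : @Sentence.Realize HK.L ℕ (mo D e (fun n => if n < N then x n else y n)) φ ↔
      @Sentence.Realize HK.L ℕ (mo D e y) φ :=
    @StrongHomClass.realize_sentence HK.L ℕ ℕ (mo D e (fun n => if n < N then x n else y n))
      (mo D e y) _ _ _ E φ
  exact h1.trans h2

private theorem model_T (D : HK.BD) (e : ℕ ≃ ℚ ⊕ (D.S ⊕ D.B)) (x : ℕ → Bool) :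
    @Theory.Model HK.L ℕ (mo D e x) HK.T :=
  HK.model_of_ax _ (by rw [HK.raw_ofRaw]; exact (D.ax x).comap e)

/-- The complete theory of the models `mo D e x`. -/
private def Tc (D : HK.BD) (e : ℕ ≃ ℚ ⊕ (D.S ⊕ D.B)) : HK.L.Theory :=
  @completeTheory HK.L ℕ (mo D e fun _ => false)

private theorem model_Tc (D : HK.BD) (e : ℕ ≃ ℚ ⊕ (D.S ⊕ D.B)) (x : ℕ → Bool) :
    @Theory.Model HK.L ℕ (mo D e x) (Tc D e) := by
  unfold Tc
  rw [mo_theory D e (fun _ => false) x]
  exact @model_completeTheory HK.L ℕ (mo D e x)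

private theorem T_of_Tc (D : HK.BD) (e : ℕ ≃ ℚ ⊕ (D.S ⊕ D.B)) (A : Mod (Tc D e)) :
    @Theory.Model HK.L ℕ A.1 HK.T := by
  have h1 : HK.T ⊆ Tc D e :=
    (@Theory.model_iff_subset_completeTheory HK.L ℕ (mo D e fun _ => false) HK.T).1
      (model_T D e _)
  letI := A.1
  exact @Theory.Model.mono HK.L ℕ A.1 HK.T (Tc D e) A.2 h1

/-- The family of models as a map into `Mod (Tc D e)`. -/
private def fam (D : HK.BD) (e : ℕ ≃ ℚ ⊕ (D.S ⊕ D.B)) (x : ℕ → Bool) : Mod (Tc D e) :=
  ⟨mo D e x, model_Tc D e x⟩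

private theorem fam_iff (D : HK.BD) (e : ℕ ≃ ℚ ⊕ (D.S ⊕ D.B)) (x y : ℕ → Bool) :
    E0 x y ↔ Iso (Tc D e) (fam D e x) (fam D e y) :=
  (mo_iso D e x y).symm

private theorem fam_cont (D : HK.BD) (e : ℕ ≃ ℚ ⊕ (D.S ⊕ D.B)) : Continuous (fam D e) := by
  classical
  rw [continuous_induced_rng]
  refine Continuous.prodMk ?_ ?_
  · exact continuous_pi fun n => continuous_pi fun f => Empty.elim f
  · refine continuous_pi fun n => continuous_pi fun r => continuous_pi fun v => ?_
    obtain ⟨N, hN⟩ := rel_loc D e r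
    show Continuous fun x : ℕ → Bool => decide ((mo D e x).RelMap r v)
    rw [continuous_discrete_rng]
    intro b
    rw [isOpen_pi_iff]
    intro x hx
    refine ⟨Finset.range N, fun i => {x i}, fun i _ => ⟨isOpen_discrete _, rfl⟩, ?_⟩
    intro y hy
    have h1 : (mo D e x).RelMap r v ↔ (mo D e y).RelMap r v := by
      refine hN x y (fun n hn => ?_) v
      exact (hy n (by simpa using hn)).symm
    have h2 : decide ((mo D e y).RelMap r v) = decide ((mo D e x).RelMap r v) :=
      decide_eq_decide.2 h1.symm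
    exact h2.trans hx

/-! ### The classifying map -/

private theorem toS_meas (T : HK.L.Theory) :
    @Measurable (Mod T) (HK.L.Structure ℕ) (borel (Mod T)) HK.mS (fun A => A.1) := by
  classical
  letI : MeasurableSpace (Mod T) := borel (Mod T)
  haveI : BorelSpace (Mod T) := ⟨rfl⟩
  apply measurable_comap_iff.2
  apply Measurable.prodMk
  · exact measurable_pi_lambda _ fun n => measurable_pi_lambda _ fun f => Empty.elim f
  · refine measurable_pi_lambda _ fun n => measurable_pi_lambda _ fun r =>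
      measurable_pi_lambda _ fun v => ?_
    have h1 : Continuous (fun A : Mod T => (code A.1).2 n r v) := by
      have h2 : Continuous (fun A : Mod T => code A.1) := continuous_induced_dom
      exact (continuous_apply v).comp ((continuous_apply r).comp
        ((continuous_apply n).comp (continuous_snd.comp h2)))
    have h3 : Measurable (fun b : Bool => b = true) := measurable_of_countable _
    have h4 := h3.comp h1.measurable
    have h5 : (fun A : Mod T => A.1.RelMap r v) =
        (fun b : Bool => b = true) ∘ (fun A : Mod T => (code A.1).2 n r v) := by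
      funext A
      simp [code]
    show Measurable (fun A : Mod T => A.1.RelMap r v)
    rw [h5]
    exact h4

/-- The recoding of the target of `HK.ft`. -/
private def cd (y : HK.Yt) (i : ℕ) : Prop :=
  match i with
  | 0 => y.1.1
  | 1 => y.1.2
  | n + 2 => y.2.1 n

/-- The recoding of the target of `HK.ft`, into `2^ℕ`. -/
private noncomputable def rc (y : HK.Yt) (n : ℕ) : Bool :=
  open Classical in
  decide ((Even n ∧ y.2.2 (n / 2)) ∨ (¬ Even n ∧ cd y (n / 2).unpair.1))

private theorem rc_iff (y z : HK.Yt) : E0 (rc y) (rc z) ↔ HK.Et y z := by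
  classical
  unfold E0 HK.Et
  constructor
  · rintro ⟨m, hm⟩
    have h1 : ∀ n, m ≤ n → (y.2.2 n ↔ z.2.2 n) := by
      intro n hn
      have h := hm (2 * n) (by omega)
      unfold rc at h
      rw [decide_eq_decide] at h
      have he : Even (2 * n) := even_two_mul n
      have hd : 2 * n / 2 = n := by omega
      simpa [he, hd] using h
    have h2 : ∀ i, (cd y i ↔ cd z i) := by
      intro i
      have hp : m ≤ Nat.pair i m := Nat.right_le_pair i m
      have h := hm (2 * Nat.pair i m + 1) (by omega)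
      unfold rc at h
      rw [decide_eq_decide] at h
      have he : ¬ Even (2 * Nat.pair i m + 1) := by
        rw [Nat.not_even_iff_odd]
        exact ⟨_, rfl⟩
      have hd : (2 * Nat.pair i m + 1) / 2 = Nat.pair i m := by omega
      rw [hd, Nat.unpair_pair] at h
      simpa [he] using h
    exact ⟨h2 0, h2 1, fun n => h2 (n + 2), m, h1⟩
  · rintro ⟨h1, h2, h3, m, h4⟩
    have h5 : ∀ i, (cd y i ↔ cd z i) := by
      intro i
      match i with
      | 0 => exact h1
      | 1 => exact h2
      | n + 2 => exact h3 n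
    refine ⟨2 * m, fun n hn => ?_⟩
    unfold rc
    rw [decide_eq_decide, h5, h4 (n / 2) (by omega)]

private theorem rc_meas : Measurable rc := by
  classical
  refine measurable_pi_lambda _ fun n => ?_
  have h0 : Measurable (fun y : HK.Yt => y.2.2 (n / 2)) :=
    (measurable_pi_apply _).comp measurable_snd.snd
  have h1 : ∀ i, Measurable (fun y : HK.Yt => cd y i) := by
    intro i
    match i with
    | 0 => exact measurable_fst.fst
    | 1 => exact measurable_fst.snd
    | n + 2 => exact (measurable_pi_apply n).comp measurable_snd.fst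
  have h2 : Measurable (fun y : HK.Yt =>
      (Even n ∧ y.2.2 (n / 2)) ∨ (¬ Even n ∧ cd y (n / 2).unpair.1)) :=
    (measurable_const.and h0).or (measurable_const.and (h1 _))
  have h3 : Measurable (fun p : Prop => decide p) := measurable_of_countable _
  have h4 : (fun y : HK.Yt => rc y n) = (fun p : Prop => decide p) ∘ (fun y : HK.Yt =>
      (Even n ∧ y.2.2 (n / 2)) ∨ (¬ Even n ∧ cd y (n / 2).unpair.1)) := by
    funext y
    unfold rc
    exact decide_eq_decide.2 Iff.rfl
  rw [h4]
  exact h3.comp h2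

private theorem red_E0 (D : HK.BD) (e : ℕ ≃ ℚ ⊕ (D.S ⊕ D.B)) :
    Reducible (Iso (Tc D e)) E0 := by
  refine ⟨fun A => rc (HK.ft ⟨A.1, T_of_Tc D e A⟩), ?_, fun A B => ?_⟩
  · unfold BorelMap
    have hb : borel (ℕ → Bool) = (inferInstance : MeasurableSpace (ℕ → Bool)) :=
      (BorelSpace.measurable_eq (α := ℕ → Bool)).symm
    rw [hb]
    letI : MeasurableSpace (Mod (Tc D e)) := borel (Mod (Tc D e))
    letI : MeasurableSpace (HK.L.Structure ℕ) := HK.mS
    have h1 : Measurable (fun A : Mod (Tc D e) =>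
        (⟨A.1, T_of_Tc D e A⟩ : {S : HK.L.Structure ℕ // @Theory.Model HK.L ℕ S HK.T})) :=
      (toS_meas (Tc D e)).subtype_mk
    exact rc_meas.comp (HK.meas_ft.comp h1)
  · rw [rc_iff, ← HK.ft_iff]
    exact Iff.rfl

private theorem countableBorel_E0 : CountableBorel E0 := by
  refine ⟨⟨?_, ?_, ?_⟩, ?_, ?_⟩
  · exact fun x => ⟨0, fun _ _ => rfl⟩
  · rintro x y ⟨m, hm⟩
    exact ⟨m, fun n hn => (hm n hn).symm⟩
  · rintro x y z ⟨m, hm⟩ ⟨l, hl⟩
    exact ⟨max m l, fun n hn => (hm n (le_trans (le_max_left _ _) hn)).trans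
      (hl n (le_trans (le_max_right _ _) hn))⟩
  · have hb : borel ((ℕ → Bool) × (ℕ → Bool)) =
        (inferInstance : MeasurableSpace ((ℕ → Bool) × (ℕ → Bool))) :=
      (BorelSpace.measurable_eq (α := (ℕ → Bool) × (ℕ → Bool))).symm
    rw [hb]
    have h1 : {p : (ℕ → Bool) × (ℕ → Bool) | E0 p.1 p.2} =
        ⋃ m : ℕ, ⋂ n : ℕ, ⋂ _ : m ≤ n, {p | p.1 n = p.2 n} := by
      ext p
      simp [E0]
    rw [h1]
    refine MeasurableSet.iUnion fun m => MeasurableSet.iInter fun n => MeasurableSet.iInter
      fun _ => ?_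
    exact measurableSet_eq_fun ((measurable_pi_apply n).comp measurable_fst)
      ((measurable_pi_apply n).comp measurable_snd)
  · intro y
    have h1 : ∀ m : ℕ, (Set.range (fun s : Fin m → Bool =>
        (fun n => if h : n < m then s ⟨n, h⟩ else y n : ℕ → Bool))).Countable :=
      fun m => Set.countable_range _
    refine (Set.countable_iUnion h1).mono ?_
    rintro z ⟨m, hm⟩
    rw [Set.mem_iUnion]
    refine ⟨m, fun i => z i, ?_⟩
    funext n
    by_cases hn : n < m
    · simp [hn]
    · simp only [hn, dite_false]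
      exact hm n (not_lt.1 hn)

/-- **A complete first-order theory whose isomorphism relation is essentially countable and not
smooth.**  There are a countable relational language `L` and a complete first-order `L`-theory `T`
such that `≅_T` is Borel bireducible with `E_0`; in one direction the reduction is even
continuous. In particular `≅_T` is essentially countable and not smooth. -/
theorem result :
    ∃ (L : FirstOrder.Language.{0, 0}) (T : L.Theory),
      Countable L.Symbols ∧ L.IsRelational ∧ T.IsComplete ∧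
      (∃ g : (ℕ → Bool) → Mod T, Continuous g ∧ ∀ x y, E0 x y ↔ Iso T (g x) (g y)) ∧
      Reducible (Iso T) E0 ∧
      EssentiallyCountable (Iso T) ∧ ¬ Smooth (Iso T) := by
  obtain ⟨D⟩ := HK.exists_BD
  haveI := D.cS
  haveI := D.cB
  haveI : Infinite (ℚ ⊕ (D.S ⊕ D.B)) := Sum.infinite_of_left
  obtain ⟨e⟩ : Nonempty (ℕ ≃ ℚ ⊕ (D.S ⊕ D.B)) := nonempty_equiv_of_countable
  refine ⟨HK.L, Tc D e, inferInstance, ?_, ?_, ⟨fam D e, fam_cont D e, fam_iff D e⟩,
    red_E0 D e, ⟨ℕ → Bool, inferInstance, { }, E0, countableBorel_E0, red_E0 D e⟩, ?_⟩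
  · intro n
    exact inferInstanceAs (IsEmpty Empty)
  · exact @completeTheory.isComplete HK.L ℕ (mo D e fun _ => false) _
  · rintro ⟨f, hf, hf'⟩
    apply HK.E0_not_smooth
    have hb : borel (ℕ → Bool) = (inferInstance : MeasurableSpace (ℕ → Bool)) :=
      (BorelSpace.measurable_eq (α := ℕ → Bool)).symm
    unfold BorelMap at hf
    have hg : @Measurable (ℕ → Bool) (Mod (Tc D e)) (borel _) (borel _) (fam D e) := by
      letI : MeasurableSpace (Mod (Tc D e)) := borel (Mod (Tc D e))
      haveI : BorelSpace (Mod (Tc D e)) := ⟨rfl⟩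
      rw [hb]
      exact (fam_cont D e).measurable
    have h1 := @Measurable.comp _ _ _ (borel _) (borel _) (borel _) _ _ hf hg
    rw [hb] at h1
    refine ⟨fun x => f (fam D e x), h1, fun x y => ?_⟩
    exact (hf' _ _).symm.trans (fam_iff D e x y).symm

end Pool.Agent.Results.MP_e47bfc_lc.CompleteTheory
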